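import Pool.Agent.helper75.S6D.Spec

/-! Row s6:FC2 (MP_2b41e9_nt): the factorization. -/

set_option autoImplicit false

open Polynomial Finset

noncomputable section

namespace Pool.Agent.S6D

open Pool.Agent.PSA

theorem FC2_re (u : ℝ) (hu : |u| < 2) : 2 * ((Circle.exp (Real.arccos (u / 2)) : Circle) : ℂ).re = u := by
  rw [Circle.coe_exp, Complex.exp_ofReal_mul_I_re, Real.cos_arccos]
  · ring
  · have := (abs_lt.1 hu).1
    linarith
  · have := (abs_lt.1 hu).2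
    linarith

theorem FC2 : FC2_stmt := by
  intro A b c u v L hR hu hv hL
  obtain ⟨hA, hb, hc⟩ := hR
  have hs : √(L ^ 2 - 4) ^ 2 = L ^ 2 - 4 := Real.sq_sqrt (by nlinarith)
  have hs0 : 0 ≤ √(L ^ 2 - 4) := Real.sqrt_nonneg _
  set Λ := (L + √(L ^ 2 - 4)) / 2 with hΛ
  have hΛ1 : 1 < Λ := by
    rw [hΛ]
    linarith
  have hΛ2 : Λ * Λ - L * Λ + 1 = 0 := by
    rw [hΛ]
    nlinarith
  have hΛ0 : Λ ≠ 0 := by linarith
  have hinv : Λ + Λ⁻¹ = L := by
    field_simp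
    linarith
  refine ⟨Λ, ![Circle.exp (Real.arccos (u / 2)), Circle.exp (Real.arccos (v / 2))], hΛ1, hinv, ?_⟩
  have hQ : QQ ![Circle.exp (Real.arccos (u / 2)), Circle.exp (Real.arccos (v / 2))] = (X ^ 2 - C u * X + 1) * (X ^ 2 - C v * X + 1) := by
    unfold QQ
    rw [Fin.prod_univ_two]
    show (X ^ 2 - C (2 * ((Circle.exp (Real.arccos (u / 2)) : Circle) : ℂ).re) * X + 1) *
      (X ^ 2 - C (2 * ((Circle.exp (Real.arccos (v / 2)) : Circle) : ℂ).re) * X + 1) = _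
    rw [FC2_re u hu, FC2_re v hv]
  unfold Fac
  rw [hQ]
  have h1 : (X - C Λ) * (X - C Λ⁻¹) = X ^ 2 - C L * X + 1 := by
    have h2 : C Λ * C Λ⁻¹ = (1 : ℝ[X]) := by
      rw [← C_mul, mul_inv_cancel₀ hΛ0, C_1]
    have h3 : C L = C Λ + C Λ⁻¹ := by
      rw [← C_add, hinv]
    rw [h3]
    linear_combination h2
  rw [h1]
  have h4 : (P6 A b c).map (Int.castRingHom ℝ) = X ^ 6 - C (A : ℝ) * X ^ 5 + C (3 - (b : ℝ)) * X ^ 4 - C (c : ℝ) * X ^ 3 +
      C (3 - (b : ℝ)) * X ^ 2 - C (A : ℝ) * X + 1 := by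
    unfold P6
    simp only [Polynomial.map_add, Polynomial.map_sub, Polynomial.map_mul, Polynomial.map_pow, Polynomial.map_X, Polynomial.map_C,
      Polynomial.map_one, Int.coe_castRingHom, Int.cast_sub, Int.cast_ofNat]
  rw [h4, hc, hb, hA]
  simp only [C_add, C_sub, C_mul, C_neg]
  have h5 : (C (3 : ℝ) : ℝ[X]) = 3 := rfl
  have h6 : (C (2 : ℝ) : ℝ[X]) = 2 := rfl
  rw [h5, h6]
  ring

end Pool.Agent.S6D
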